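import Pool.Agent.K9h72.FSJ.Main

/-!
# The transfinite iterates of the computable FS-jump depend on the notation

There are two notations `a`, `b` of the ordinal `ω ^ 2` in Kleene's `𝒪` such that the iterate of the
computable FS-jump of the equality relation along `a` is not computably reducible to the one along
`b`.

All definitions are in `Pool.Agent.K9h72.FSJ.Core` and `Pool.Agent.K9h72.FSJ.KleeneO`:

* `phi e` is the partial computable function with index `e`;
* `InO` and `LtO` are Kleene's set `𝒪` and its order, `Denotes a α` says that `a` denotes `α`;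
* `fsJump E` is the computable FS-jump, `IsIter E a R` says that `R` is the iterate `E^{+a}`;
* `Red` is computable reducibility.
-/

set_option autoImplicit false

namespace Pool.Agent.Results.MP_52a9f3_lc.NotationDependence

open Pool.Agent.K9h72.FSJ Ordinal

/-- Every notation denotes exactly one ordinal and every relation has exactly one iterate along
every notation, and there are notations `a`, `b` of `ω ^ 2` such that the iterate of the equality
relation along `a` is not computably reducible to the iterate along `b`. -/
theorem result :
    (∀ a : ℕ, InO a → ∃! α : Ordinal.{0}, Denotes a α) ∧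
    (∀ (a : ℕ) (α : Ordinal.{0}), Denotes a α → InO a) ∧
    (∀ (E : ℕ → ℕ → Prop) (a : ℕ), InO a → ∃! R, IsIter E a R) ∧
    ∃ a b : ℕ, Denotes a (ω ^ 2) ∧ Denotes b (ω ^ 2) ∧
      ∀ R S, IsIter (fun x y => x = y) a R → IsIter (fun x y => x = y) b S →
        Equivalence R ∧ Equivalence S ∧ ¬ Red R S := by
  refine ⟨?_, fun a α h => h.inO, ?_, ?_⟩
  · intro a h
    obtain ⟨α, hα⟩ := exists_denotes h
    exact ⟨α, hα, fun β hβ => (hα.unique hβ).symm⟩
  · intro E a h
    obtain ⟨R, hR⟩ := exists_iter E h
    exact ⟨R, hR, fun S hS => (hR.unique hS).symm⟩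
  · obtain ⟨a, b, ha, hb, R, S, hR, hS, h⟩ := main
    refine ⟨a, b, ha, hb, fun R' S' hR' hS' => ?_⟩
    have he : Equivalence (fun x y : ℕ => x = y) :=
      ⟨fun _ => rfl, fun h => h.symm, fun h h' => h.trans h'⟩
    refine ⟨hR'.equiv he, hS'.equiv he, ?_⟩
    rw [← hR.unique hR', ← hS.unique hS']
    exact h

end Pool.Agent.Results.MP_52a9f3_lc.NotationDependence
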